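import Pool.Agent.W300.FT.Stm

set_option autoImplicit false

namespace Pool.Agent.W374.FT

open MeasureTheory ProbabilityTheory Pool.Agent.W300.FT

noncomputable section

variable {V : Type} {G : SimpleGraph V} {C : Set V}

theorem ch_up {ω : V × K → Bool} {c : ℕ × ℕ} {γ γ' : ℕ → V} (h : Ch G ω c γ) (h' : Ch G ω c γ')
    {k : ℕ} (hk : k < c.1 + 2) (e : γ k = γ' k) : γ (k + 1) = γ' (k + 1) := by
  obtain ⟨a1, -, m2, e1, -⟩ := h k hk
  obtain ⟨a1', -, m2', -, -⟩ := h' k hk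
  rw [← e] at a1'
  exact e1.unique ⟨a1, m2⟩ ⟨a1', m2'⟩

theorem ch_down {ω : V × K → Bool} {c : ℕ × ℕ} {γ γ' : ℕ → V} (h : Ch G ω c γ) (h' : Ch G ω c γ')
    {k : ℕ} (hk : k < c.1 + 2) (e : γ (k + 1) = γ' (k + 1)) : γ k = γ' k := by
  obtain ⟨a1, m1, -, -, e2⟩ := h k hk
  obtain ⟨a1', m1', -, -, -⟩ := h' k hk
  rw [← e] at a1'
  exact e2.unique ⟨a1.symm, m1⟩ ⟨a1'.symm, m1'⟩

theorem ch_unique {ω : V × K → Bool} {c : ℕ × ℕ} {γ γ' : ℕ → V} (h : Ch G ω c γ)
    (h' : Ch G ω c γ') {j : ℕ} (hj : j ≤ c.1 + 2) (e : γ j = γ' j) :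
    ∀ k ≤ c.1 + 2, γ k = γ' k := by
  have h0 : γ 0 = γ' 0 := by
    induction j with
    | zero => exact e
    | succ j ih => exact ih (by omega) (ch_down h h' (by omega) e)
  intro k hk
  induction k with
  | zero => exact h0
  | succ k ih => exact ch_up h h' (by omega) (ih (by omega))

/-- The chain `γ` starts (position `1`) in `C` and `p` is its first interior position outside. -/
def Bad (G : SimpleGraph V) (C : Set V) (ω : V × K → Bool) (c : ℕ × ℕ) (γ : ℕ → V) (p : ℕ) :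
    Prop :=
  Ch G ω c γ ∧ γ 1 ∈ C ∧ 1 < p ∧ p < c.1 + 2 ∧ γ p ∉ C ∧ ∀ j, 1 < j → j < p → γ j ∈ C

theorem bad_unique {ω : V × K → Bool} {c : ℕ × ℕ} {γ γ' : ℕ → V} {p p' : ℕ}
    (h : Bad G C ω c γ p) (h' : Bad G C ω c γ' p') {j : ℕ} (hj : j ≤ c.1 + 2)
    (e : γ j = γ' j) : p = p' ∧ ∀ k ≤ c.1 + 2, γ k = γ' k := by
  obtain ⟨a1, -, a3, a4, a5, a6⟩ := h
  obtain ⟨b1, -, b3, b4, b5, b6⟩ := h'
  have hu := ch_unique a1 b1 hj e
  refine ⟨?_, hu⟩
  rcases lt_trichotomy p p' with hlt | heq | hgt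
  · exact absurd (by rw [hu p (by omega)]; exact b6 p a3 hlt) a5
  · exact heq
  · exact absurd (by rw [← hu p' (by omega)]; exact a6 p' b3 hgt) b5

/-- The partner relation. -/
def RR (G : SimpleGraph V) (C : Set V) (ω : V × K → Bool) (e e' : V × K) : Prop :=
  ∃ (c : ℕ × ℕ) (i p : ℕ) (γ : ℕ → V), 2 ≤ i ∧ Bad G C ω c γ p ∧
    ((e = (γ 1, (c, 1, i)) ∧ e' = (γ p, (c, p, i))) ∨
      (e = (γ p, (c, p, i)) ∧ e' = (γ 1, (c, 1, i))))

theorem RR_symm {ω : V × K → Bool} {e e' : V × K} (h : RR G C ω e e') : RR G C ω e' e := by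
  obtain ⟨c, i, p, γ, hi, hb, h1 | h1⟩ := h
  · exact ⟨c, i, p, γ, hi, hb, Or.inr ⟨h1.2, h1.1⟩⟩
  · exact ⟨c, i, p, γ, hi, hb, Or.inl ⟨h1.2, h1.1⟩⟩

theorem RR_unique {ω : V × K → Bool} {e e' e'' : V × K} (h : RR G C ω e e')
    (h' : RR G C ω e e'') : e' = e'' := by
  obtain ⟨c, i, p, γ, hi, hb, h1⟩ := h
  obtain ⟨c', i', p', γ', hi', hb', h1'⟩ := h'
  have hp1 : 1 < p := hb.2.2.1
  have hp1' : 1 < p' := hb'.2.2.1
  have hpn : p < c.1 + 2 := hb.2.2.2.1
  rcases h1 with ⟨e1, e2⟩ | ⟨e1, e2⟩ <;> rcases h1' with ⟨e1', e2'⟩ | ⟨e1', e2'⟩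
  · rw [e1] at e1'
    simp only [Prod.mk.injEq] at e1'
    obtain ⟨g1, rfl, -, rfl⟩ := e1'
    obtain ⟨rfl, hu⟩ := bad_unique hb hb' (by omega) g1
    rw [e2, e2', hu p (by omega)]
  · rw [e1] at e1'
    simp only [Prod.mk.injEq] at e1'
    omega
  · rw [e1] at e1'
    simp only [Prod.mk.injEq] at e1'
    omega
  · rw [e1] at e1'
    simp only [Prod.mk.injEq] at e1'
    obtain ⟨g1, rfl, rfl, rfl⟩ := e1'
    obtain ⟨-, hu⟩ := bad_unique hb hb' (j := p) (by omega) g1
    rw [e2, e2', hu 1 (by omega)]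

open Classical in
/-- The swap. -/
def ss (G : SimpleGraph V) (C : Set V) (ω : V × K → Bool) (e : V × K) : V × K :=
  if h : ∃ e', RR G C ω e e' then h.choose else e

theorem ss_of {ω : V × K → Bool} {e e' : V × K} (h : RR G C ω e e') : ss G C ω e = e' := by
  have h0 : ∃ e', RR G C ω e e' := ⟨e', h⟩
  unfold ss
  rw [dif_pos h0]
  exact RR_unique h0.choose_spec h

theorem ss_not {ω : V × K → Bool} {e : V × K} (h : ¬ ∃ e', RR G C ω e e') :
    ss G C ω e = e := by
  unfold ss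
  rw [dif_neg h]

theorem ss_ss (ω : V × K → Bool) (e : V × K) : ss G C ω (ss G C ω e) = e := by
  by_cases h : ∃ e', RR G C ω e e'
  · obtain ⟨e', h⟩ := h
    rw [ss_of h, ss_of (RR_symm h)]
  · rw [ss_not h, ss_not h]

theorem et_congr {ω ω' : V × K → Bool} (h : ∀ e : V × K, e.2.2.2 = 0 → ω e = ω' e) :
    et G ω = et G ω' := by
  funext c j v
  unfold et
  simp only [h (_, (c, j, 0)) rfl]

theorem ch_congr {ω ω' : V × K → Bool} (h : ∀ e : V × K, e.2.2.2 = 0 → ω e = ω' e) :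
    Ch G ω = Ch G ω' := by
  funext c γ
  unfold Ch Pool.Agent.W300.FT.mt
  rw [et_congr h]
  simp only [h (_, (c, _, 0)) rfl]

theorem RR_congr {ω ω' : V × K → Bool} (h : ∀ e : V × K, e.2.2.2 = 0 → ω e = ω' e) :
    RR G C ω = RR G C ω' := by
  funext e e'
  unfold RR Bad
  rw [ch_congr h]

theorem ss_congr {ω ω' : V × K → Bool} (h : ∀ e : V × K, e.2.2.2 = 0 → ω e = ω' e) :
    ss G C ω = ss G C ω' := by
  funext e
  unfold ss
  rw [RR_congr h]

/-- The value without the positions `1` and `p`. -/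
def gg (ω : V × K → Bool) (c : ℕ × ℕ) (i : ℕ) (γ : ℕ → V) (p : ℕ) : ZMod 2 :=
  bt (ω (γ 0, (c, 0, i))) * bt (ω (γ (c.1 + 2), (c, c.1 + 2, i))) +
    ∑ j ∈ (Finset.Ioo 1 (c.1 + 2)).erase p, bt (ω (γ j, (c, j, i)))

open Classical in
/-- The shear. -/
def ff (G : SimpleGraph V) (C : Set V) (ω : V × K → Bool) (e : V × K) : Bool :=
  decide (∃ (c : ℕ × ℕ) (i p : ℕ) (γ : ℕ → V), 2 ≤ i ∧ Bad G C ω c γ p ∧
    e = (γ 1, (c, 1, i)) ∧ gg ω c i γ p = 1)

theorem gg_congr {ω ω' : V × K → Bool} {c : ℕ × ℕ} {i p : ℕ} {γ : ℕ → V}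
    (h : ∀ j ≤ c.1 + 2, j ≠ 1 → j ≠ p → ω (γ j, (c, j, i)) = ω' (γ j, (c, j, i)))
    (hp : 1 < p) (hpn : p < c.1 + 2) : gg ω c i γ p = gg ω' c i γ p := by
  unfold gg
  rw [h 0 (by omega) (by omega) (by omega), h (c.1 + 2) le_rfl (by omega) (by omega)]
  congr 1
  refine Finset.sum_congr rfl fun j hj => ?_
  rw [Finset.mem_erase, Finset.mem_Ioo] at hj
  rw [h j (by omega) (by omega) hj.1]

theorem gg_walk {ω : V × K → Bool} {c : ℕ × ℕ} {i p : ℕ} {γ γ' : ℕ → V}
    (h : ∀ k ≤ c.1 + 2, γ k = γ' k) : gg ω c i γ p = gg ω c i γ' p := by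
  unfold gg
  rw [h 0 (by omega), h (c.1 + 2) le_rfl]
  congr 1
  refine Finset.sum_congr rfl fun j hj => ?_
  rw [Finset.mem_erase, Finset.mem_Ioo] at hj
  rw [h j (by omega)]

theorem fm_walk {ω : V × K → Bool} {c : ℕ × ℕ} {i : ℕ} {γ γ' : ℕ → V}
    (h : ∀ k ≤ c.1 + 2, γ k = γ' k) : fm ω c i γ = fm ω c i γ' := by
  unfold fm
  rw [h 0 (by omega), h (c.1 + 2) le_rfl]
  congr 1
  refine Finset.sum_congr rfl fun j hj => ?_
  rw [Finset.mem_Ioo] at hj
  rw [h j (by omega)]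

theorem fm_gg (ω : V × K → Bool) (c : ℕ × ℕ) (i p : ℕ) (γ : ℕ → V) (hp : 1 < p)
    (hpn : p < c.1 + 2) : fm ω c i γ = bt (ω (γ p, (c, p, i))) + gg ω c i γ p := by
  unfold fm gg
  rw [← Finset.add_sum_erase (Finset.Ioo 1 (c.1 + 2)) (fun j => bt (ω (γ j, (c, j, i))))
    (Finset.mem_Ioo.2 ⟨hp, hpn⟩)]
  ring

/-- The transformation. -/
def tau (G : SimpleGraph V) (C : Set V) (ω : V × K → Bool) (e : V × K) : Bool :=
  xor (ω (ss G C ω e)) (ff G C (fun e => ω (ss G C ω e)) e)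

theorem ss_small (ω : V × K → Bool) (e : V × K) (he : e.2.2.2 < 2) : ss G C ω e = e := by
  refine ss_not ?_
  rintro ⟨e', c, i, p, γ, hi, -, ⟨rfl, -⟩ | ⟨rfl, -⟩⟩ <;> simp only at he <;> omega

theorem ff_not (ω : V × K → Bool) (e : V × K) (he : ¬ (e.2.2.1 = 1 ∧ 2 ≤ e.2.2.2)) :
    ff G C ω e = false := by
  unfold ff
  rw [decide_eq_false_iff_not]
  rintro ⟨c, i, p, γ, hi, -, rfl, -⟩
  exact he ⟨rfl, hi⟩

theorem tau_small (ω : V × K → Bool) (e : V × K) (he : e.2.2.2 < 2) : tau G C ω e = ω e := by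
  unfold tau
  rw [ss_small ω e he, ff_not _ e (by omega), Bool.xor_false]

/-- away from the positions `1` and `p` of a bad chain, nothing is swapped -/
theorem ss_chain {ω : V × K → Bool} {c : ℕ × ℕ} {γ : ℕ → V} (hγ : Ch G ω c γ) (i j : ℕ)
    (hj : j ≤ c.1 + 2) (hj1 : j ≠ 1) (hjp : ∀ p, Bad G C ω c γ p → j ≠ p) :
    ss G C ω (γ j, (c, j, i)) = (γ j, (c, j, i)) := by
  refine ss_not ?_
  rintro ⟨e', c', i', p, γ', hi, hb, ⟨h1, -⟩ | ⟨h1, -⟩⟩
  · simp only [Prod.mk.injEq] at h1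
    exact hj1 h1.2.2.1
  · simp only [Prod.mk.injEq] at h1
    obtain ⟨g1, rfl, rfl, rfl⟩ := h1
    have hu := ch_unique hγ hb.1 hj g1
    refine hjp j ?_ rfl
    obtain ⟨-, a2, a3, a4, a5, a6⟩ := hb
    refine ⟨hγ, by rw [hu 1 (by omega)]; exact a2, a3, a4, by rw [hu j hj]; exact a5, ?_⟩
    intro k hk1 hk2
    rw [hu k (by omega)]
    exact a6 k hk1 hk2

theorem exists_bad {ω : V × K → Bool} {c : ℕ × ℕ} {γ : ℕ → V} (hγ : Ch G ω c γ)
    (h1 : γ 1 ∈ C) (hn : ¬ ∀ j ∈ Finset.Ioo 0 (c.1 + 2), γ j ∈ C) : ∃ p, Bad G C ω c γ p := by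
  classical
  push Not at hn
  obtain ⟨j, hj, hjC⟩ := hn
  rw [Finset.mem_Ioo] at hj
  have hex : ∃ p, 1 < p ∧ p < c.1 + 2 ∧ γ p ∉ C := by
    refine ⟨j, ?_, hj.2, hjC⟩
    rcases Nat.lt_or_ge 1 j with h | h
    · exact h
    · have : j = 1 := by omega
      rw [this] at hjC
      exact absurd h1 hjC
  refine ⟨Nat.find hex, hγ, h1, (Nat.find_spec hex).1, (Nat.find_spec hex).2.1,
    (Nat.find_spec hex).2.2, fun k hk1 hk2 => ?_⟩
  by_contra hkC
  exact Nat.find_min hex hk2 ⟨hk1, by have := (Nat.find_spec hex).2.1; omega, hkC⟩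

theorem tau_chain {ω : V × K → Bool} {c : ℕ × ℕ} {γ : ℕ → V} (hγ : Ch G ω c γ) (i j : ℕ)
    (hj : j ≤ c.1 + 2) (hj1 : j ≠ 1) (hjp : ∀ p, Bad G C ω c γ p → j ≠ p) :
    tau G C ω (γ j, (c, j, i)) = ω (γ j, (c, j, i)) := by
  unfold tau
  rw [ss_chain hγ i j hj hj1 hjp, ff_not _ _ (by simp only; omega), Bool.xor_false]

theorem bt_xor (a : Bool) (x : ZMod 2) :
    xor a (decide (x = 1)) = decide (bt a + x = 1) := by
  cases a <;> revert x <;> decide

theorem key (ω : V × K → Bool) (v : V) (hv : v ∈ C) :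
    PsiC G C (tau G C ω) v = Psi G ω v := by
  have hsm : ∀ e : V × K, e.2.2.2 = 0 → tau G C ω e = ω e := fun e he =>
    tau_small ω e (by omega)
  have hsm' : ∀ e : V × K, e.2.2.2 = 0 → (fun e => ω (ss G C ω e)) e = ω e := fun e he => by
    simp only
    rw [ss_small ω e (by omega)]
  funext k
  obtain ⟨c, j, i⟩ := k
  classical
  have hEt : ∀ c j v, et G (tau G C ω) c j v ↔ et G ω c j v := fun c j v => by
    rw [et_congr hsm]
  have hCh : ∀ c γ, Ch G (tau G C ω) c γ ↔ Ch G ω c γ := fun c γ => by rw [ch_congr hsm]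
  unfold PsiC Psi
  simp only [hEt, hCh]
  by_cases hi0 : i = 0
  · rw [if_pos hi0, if_pos hi0]
    exact tau_small ω _ (by simp only; omega)
  rw [if_neg hi0, if_neg hi0]
  by_cases hi1 : i = 1
  · rw [if_pos hi1, if_pos hi1]
  rw [if_neg hi1, if_neg hi1]
  have hi2 : 2 ≤ i := by omega
  by_cases hex : j = 1 ∧ ∃ γ : ℕ → V, γ 1 = v ∧ Ch G ω c γ
  · rw [if_pos hex]
    obtain ⟨rfl, γ, hγ1, hγ⟩ := hex
    have h1C : γ 1 ∈ C := by rw [hγ1]; exact hv
    have hfmdec : (∃ γ : ℕ → V, γ 1 = v ∧ Ch G ω c γ ∧ fm ω c i γ = 1) ↔ fm ω c i γ = 1 := by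
      constructor
      · rintro ⟨γ', h1, h2, h3⟩
        rw [← h3]
        exact fm_walk (ch_unique hγ h2 (j := 1) (by omega) (hγ1.trans h1.symm))
      · intro h
        exact ⟨γ, hγ1, hγ, h⟩
    by_cases hin : ∀ j ∈ Finset.Ioo 0 (c.1 + 2), γ j ∈ C
    · rw [if_pos ⟨rfl, γ, hγ1, hγ, hin⟩]
      have hnb : ∀ (γ' : ℕ → V) (p : ℕ), γ' 1 = v → Bad G C ω c γ' p → False := by
        rintro γ' p h1 ⟨a1, a2, a3, a4, a5, a6⟩
        have hu := ch_unique hγ a1 (j := 1) (by omega) (hγ1.trans h1.symm)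
        exact a5 (by rw [← hu p (by omega)]; exact hin p (Finset.mem_Ioo.2 ⟨by omega, a4⟩))
      have hfm : fm (tau G C ω) c i γ = fm ω c i γ := by
        have hc : ∀ j ≤ c.1 + 2, j ≠ 1 → tau G C ω (γ j, (c, j, i)) = ω (γ j, (c, j, i)) :=
          fun j hj hj1 => tau_chain hγ i j hj hj1 fun p hb => (hnb γ p hγ1 hb).elim
        unfold fm
        rw [hc 0 (by omega) (by omega), hc (c.1 + 2) le_rfl (by omega)]
        congr 1
        refine Finset.sum_congr rfl fun j hj => ?_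
        rw [Finset.mem_Ioo] at hj
        rw [hc j (by omega) (by omega)]
      have hfmdec' : (∃ γ : ℕ → V, γ 1 = v ∧ Ch G ω c γ ∧ fm (tau G C ω) c i γ = 1) ↔
          fm ω c i γ = 1 := by
        rw [← hfm]
        constructor
        · rintro ⟨γ', h1, h2, h3⟩
          rw [← h3]
          exact fm_walk (ch_unique hγ h2 (j := 1) (by omega) (hγ1.trans h1.symm))
        · intro h
          exact ⟨γ, hγ1, hγ, h⟩
      rw [decide_eq_decide, hfmdec', hfmdec]
    · obtain ⟨p, hb⟩ := exists_bad hγ h1C hin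
      have hp1 : 1 < p := hb.2.2.1
      have hpn : p < c.1 + 2 := hb.2.2.2.1
      rw [if_neg]
      · have hs : ss G C ω (v, (c, 1, i)) = (γ p, (c, p, i)) := by
          refine ss_of ⟨c, i, p, γ, hi2, hb, Or.inl ⟨by rw [hγ1], rfl⟩⟩
        have hgg : gg (fun e => ω (ss G C ω e)) c i γ p = gg ω c i γ p := by
          refine gg_congr (fun j hj hj1 hjp => ?_) hp1 hpn
          rw [ss_chain hγ i j hj hj1 fun p' hb' => by
            rw [← (bad_unique hb hb' (j := 0) (by omega) rfl).1]; exact hjp]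
        have hff : ff G C (fun e => ω (ss G C ω e)) (v, (c, 1, i)) =
            decide (gg ω c i γ p = 1) := by
          unfold ff
          rw [decide_eq_decide]
          have hBc : ∀ c' γ' p', Bad G C (fun e => ω (ss G C ω e)) c' γ' p' ↔
              Bad G C ω c' γ' p' := by
            intro c' γ' p'
            unfold Bad
            rw [ch_congr hsm']
          constructor
          · rintro ⟨c', i', p', γ', -, hb', he, hg⟩
            rw [hBc] at hb'
            simp only [Prod.mk.injEq] at he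
            obtain ⟨g1, rfl, -, rfl⟩ := he
            obtain ⟨rfl, hu⟩ := bad_unique hb hb' (j := 1) (by omega) (hγ1.trans g1)
            rw [← hgg, gg_walk hu]
            exact hg
          · intro hg
            exact ⟨c, i, p, γ, hi2, (hBc _ _ _).2 hb, by rw [hγ1], by rw [hgg]; exact hg⟩
        unfold tau
        rw [hff, hs, bt_xor, decide_eq_decide, hfmdec, fm_gg ω c i p γ hp1 hpn]
      · rintro ⟨-, γ', h1, h2, h3⟩
        have hu := ch_unique hγ h2 (j := 1) (by omega) (hγ1.trans h1.symm)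
        exact hb.2.2.2.2.1 (by rw [hu p (by omega)]; exact h3 p (Finset.mem_Ioo.2 ⟨by omega, hpn⟩))
  · rw [if_neg hex, if_neg]
    · unfold tau
      have hs : ss G C ω (v, (c, j, i)) = (v, (c, j, i)) := by
        refine ss_not ?_
        rintro ⟨e', c', i', p, γ', hi, hb, ⟨h1, -⟩ | ⟨h1, -⟩⟩
        · simp only [Prod.mk.injEq] at h1
          obtain ⟨g1, rfl, g2, rfl⟩ := h1
          exact hex ⟨g2, γ', g1.symm, hb.1⟩
        · simp only [Prod.mk.injEq] at h1
          exact hb.2.2.2.2.1 (by rw [← h1.1]; exact hv)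
      have hf : ff G C (fun e => ω (ss G C ω e)) (v, (c, j, i)) = false := by
        unfold ff
        rw [decide_eq_false_iff_not]
        rintro ⟨c', i', p, γ', hi, hb, h1, -⟩
        simp only [Prod.mk.injEq] at h1
        obtain ⟨g1, rfl, g2, rfl⟩ := h1
        have hch : Ch G (fun e => ω (ss G C ω e)) c γ' := hb.1
        rw [ch_congr hsm'] at hch
        exact hex ⟨g2, γ', g1.symm, hch⟩
      rw [hs, hf, Bool.xor_false]
    · rintro ⟨h0, γ', h1, h2, -⟩
      exact hex ⟨h0, γ', h1, h2⟩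

/-! ### measurability -/

theorem m_coord (e : V × K) : Measurable (fun ω : V × K → Bool => ω e = true) :=
  measurableSet_setOfPred.1 (measurableSet_eq_fun (measurable_pi_apply e) measurable_const)

theorem m_exists [Countable V] {Ω : Type} [MeasurableSpace Ω] (N : ℕ) (P : (ℕ → V) → Ω → Prop)
    (hP : ∀ γ γ' : ℕ → V, (∀ k ≤ N, γ k = γ' k) → P γ = P γ') (hm : ∀ γ, Measurable (P γ)) :
    Measurable fun ω => ∃ γ, P γ ω := by
  have e : (fun ω => ∃ γ, P γ ω) = fun ω => ∃ g : Fin (N + 1) → V,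
      P (fun k => g ⟨min k N, by omega⟩) ω := by
    funext ω
    refine propext ⟨?_, ?_⟩
    · rintro ⟨γ, h⟩
      refine ⟨fun k => γ k, ?_⟩
      rw [hP _ γ]
      · exact h
      · intro k hk
        simp only
        rw [min_eq_left hk]
    · rintro ⟨g, h⟩
      exact ⟨_, h⟩
  rw [e]
  exact Measurable.exists fun g => hm _

theorem m_add {Ω : Type} [MeasurableSpace Ω] {a b : Ω → ZMod 2}
    (ha : Measurable fun ω => a ω = 1) (hb : Measurable fun ω => b ω = 1) :
    Measurable fun ω => a ω + b ω = 1 := by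
  have : (fun ω => a ω + b ω = 1) = fun ω => (a ω = 1 ∧ ¬ b ω = 1) ∨ (¬ a ω = 1 ∧ b ω = 1) := by
    funext ω
    generalize a ω = x
    generalize b ω = y
    have : ∀ x y : ZMod 2, (x + y = 1 ↔ (x = 1 ∧ ¬ y = 1) ∨ (¬ x = 1 ∧ y = 1)) := by decide
    exact propext (this x y)
  rw [this]
  exact (ha.and hb.not).or (ha.not.and hb)

theorem m_mul {Ω : Type} [MeasurableSpace Ω] {a b : Ω → ZMod 2}
    (ha : Measurable fun ω => a ω = 1) (hb : Measurable fun ω => b ω = 1) :
    Measurable fun ω => a ω * b ω = 1 := by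
  have : (fun ω => a ω * b ω = 1) = fun ω => (a ω = 1 ∧ b ω = 1) := by
    funext ω
    generalize a ω = x
    generalize b ω = y
    have : ∀ x y : ZMod 2, (x * y = 1 ↔ (x = 1 ∧ y = 1)) := by decide
    exact propext (this x y)
  rw [this]
  exact ha.and hb

theorem m_bt (e : V × K) : Measurable (fun ω : V × K → Bool => bt (ω e) = 1) := by
  have : (fun ω : V × K → Bool => bt (ω e) = 1) = fun ω => ω e = true := by
    funext ω
    generalize ω e = x
    have : ∀ x : Bool, (bt x = 1 ↔ x = true) := by decide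
    exact propext (this x)
  rw [this]
  exact m_coord e

theorem m_gg (c : ℕ × ℕ) (i p : ℕ) (γ : ℕ → V) :
    Measurable (fun ω : V × K → Bool => gg ω c i γ p = 1) := by
  unfold gg
  refine m_add (m_mul (m_bt _) (m_bt _)) ?_
  generalize (Finset.Ioo 1 (c.1 + 2)).erase p = S
  classical
  induction S using Finset.induction_on with
  | empty =>
    simp only [Finset.sum_empty]
    exact measurable_const
  | insert a S ha ih =>
    simp only [Finset.sum_insert ha]
    exact m_add (m_bt _) ih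

theorem m_et [Countable V] (hm : S_MEAS) (c : ℕ × ℕ) (j : ℕ) (v : V) :
    Measurable (fun ω : V × K → Bool => et G ω c j v) := by
  have h1 := (hm V G Set.univ inferInstance).1
  have h2 : Measurable (fun ω : V × K → Bool => Psi G ω v (c, j, 1)) :=
    measurable_pi_iff.1 (measurable_pi_iff.1 h1 v) (c, j, 1)
  have h3 : Measurable (fun ω : V × K → Bool => Psi G ω v (c, j, 1) = true) :=
    measurableSet_setOfPred.1 (measurableSet_eq_fun h2 measurable_const)
  have e : (fun ω : V × K → Bool => et G ω c j v) = fun ω => Psi G ω v (c, j, 1) = true := by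
    funext ω
    unfold Psi
    simp
  rw [e]
  exact h3

theorem m_ch [Countable V] (hm : S_MEAS) (c : ℕ × ℕ) (γ : ℕ → V) :
    Measurable (fun ω : V × K → Bool => Ch G ω c γ) := by
  unfold Ch Pool.Agent.W300.FT.mt
  refine Measurable.forall fun j => Measurable.imp measurable_const ?_
  exact measurable_const.and ((m_coord _).and ((m_coord _).and ((m_et hm _ _ _).and
    (m_et hm _ _ _))))

theorem m_bad [Countable V] (hm : S_MEAS) (c : ℕ × ℕ) (γ : ℕ → V) (p : ℕ) :
    Measurable (fun ω : V × K → Bool => Bad G C ω c γ p) := by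
  unfold Bad
  exact (m_ch hm c γ).and measurable_const

theorem ch_walk {ω : V × K → Bool} {c : ℕ × ℕ} {γ γ' : ℕ → V}
    (h : ∀ k ≤ c.1 + 2, γ k = γ' k) : Ch G ω c γ = Ch G ω c γ' := by
  unfold Ch
  refine propext (forall_congr' fun j => ?_)
  refine imp_congr_right fun hj => ?_
  rw [h j (by omega), h (j + 1) (by omega)]

theorem bad_walk {ω : V × K → Bool} {c : ℕ × ℕ} {γ γ' : ℕ → V} {p : ℕ}
    (h : ∀ k ≤ c.1 + 2, γ k = γ' k) : Bad G C ω c γ p = Bad G C ω c γ' p := by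
  unfold Bad
  rw [ch_walk h, h 1 (by omega)]
  refine propext (and_congr_right fun _ => and_congr_right fun _ => and_congr_right fun h1 => ?_)
  refine and_congr_right fun h2 => ?_
  rw [h p (by omega)]
  refine and_congr_right fun _ => forall_congr' fun j => ?_
  refine imp_congr_right fun _ => imp_congr_right fun h4 => ?_
  rw [h j (by omega)]

theorem m_RR [Countable V] (hm : S_MEAS) (e e' : V × K) :
    Measurable (fun ω : V × K → Bool => RR G C ω e e') := by
  unfold RR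
  refine Measurable.exists fun c => Measurable.exists fun i => Measurable.exists fun p => ?_
  by_cases hp : p ≤ c.1 + 2
  · refine m_exists (c.1 + 2) (fun γ ω => 2 ≤ i ∧ Bad G C ω c γ p ∧
      ((e = (γ 1, (c, 1, i)) ∧ e' = (γ p, (c, p, i))) ∨
      (e = (γ p, (c, p, i)) ∧ e' = (γ 1, (c, 1, i))))) ?_ ?_
    · intro γ γ' h
      funext ω
      rw [bad_walk h, h 1 (by omega), h p hp]
    · intro γ
      exact measurable_const.and ((m_bad hm c γ p).and measurable_const)
  · have : (fun ω : V × K → Bool => ∃ γ : ℕ → V, 2 ≤ i ∧ Bad G C ω c γ p ∧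
      ((e = (γ 1, (c, 1, i)) ∧ e' = (γ p, (c, p, i))) ∨
      (e = (γ p, (c, p, i)) ∧ e' = (γ 1, (c, 1, i))))) = fun _ => False := by
      funext ω
      refine propext ⟨?_, False.elim⟩
      rintro ⟨γ, -, hb, -⟩
      have := hb.2.2.2.1
      omega
    rw [this]
    exact measurable_const

theorem m_ss [Countable V] (hm : S_MEAS) (e e' : V × K) :
    MeasurableSet {ω : V × K → Bool | ss G C ω e = e'} := by
  rw [measurableSet_setOfPred]
  have : (fun ω : V × K → Bool => ss G C ω e = e') = fun ω => RR G C ω e e' ∨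
      (e = e' ∧ ∀ e'', ¬ RR G C ω e e'') := by
    funext ω
    refine propext ⟨?_, ?_⟩
    · intro h
      by_cases hex : ∃ e'', RR G C ω e e''
      · obtain ⟨e'', h2⟩ := hex
        rw [ss_of h2] at h
        rw [← h]
        exact Or.inl h2
      · rw [ss_not hex] at h
        exact Or.inr ⟨h, fun e'' h2 => hex ⟨e'', h2⟩⟩
    · rintro (h | ⟨h1, h2⟩)
      · exact ss_of h
      · rw [ss_not (fun ⟨e'', h3⟩ => h2 e'' h3), h1]
  rw [this]
  exact (m_RR hm e e').or (measurable_const.and (Measurable.forall fun e'' => (m_RR hm e e'').not))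

theorem m_ff [Countable V] (hm : S_MEAS) : Measurable (ff G C) := by
  rw [measurable_pi_iff]
  intro e
  refine measurable_to_bool ?_
  have : (fun ω => ff G C ω e) ⁻¹' {true} = {ω : V × K → Bool | ∃ (c : ℕ × ℕ) (i p : ℕ)
      (γ : ℕ → V), 2 ≤ i ∧ Bad G C ω c γ p ∧ e = (γ 1, (c, 1, i)) ∧ gg ω c i γ p = 1} := by
    ext ω
    unfold ff
    simp only [Set.mem_preimage, Set.mem_singleton_iff, decide_eq_true_eq]
    rfl
  rw [this, measurableSet_setOfPred]
  refine Measurable.exists fun c => Measurable.exists fun i => Measurable.exists fun p => ?_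
  refine m_exists (c.1 + 2) (fun γ ω => 2 ≤ i ∧ Bad G C ω c γ p ∧ e = (γ 1, (c, 1, i)) ∧
    gg ω c i γ p = 1) ?_ ?_
  · intro γ γ' h
    funext ω
    rw [bad_walk h, h 1 (by omega), gg_walk h]
  · intro γ
    exact measurable_const.and ((m_bad hm c γ p).and (measurable_const.and (m_gg c i p γ)))

theorem fd1 (hsw : S_SWAP) (hsh : S_SHEAR) (hm : S_MEAS) : S_FD1 := by
  intro V G C hV
  have hE : Countable (V × K) := inferInstance
  have h1 : MeasurePreserving (fun (ω : V × K → Bool) e => ω (ss G C ω e)) (PC (V × K))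
      (PC (V × K)) := by
    refine hsw (V × K) {e | e.2.2.2 = 0} (ss G C) hE ss_ss ?_ ?_ (m_ss hm)
    · intro ω ω' h
      exact ss_congr fun e he => h e he
    · intro ω e he
      have he' : e.2.2.2 = 0 := he
      exact ss_small ω e (by omega)
  have h2 : MeasurePreserving (fun (ω : V × K → Bool) e => xor (ω e) (ff G C ω e)) (PC (V × K))
      (PC (V × K)) := by
    refine hsh (V × K) {e | e.2.2.1 = 1 ∧ 2 ≤ e.2.2.2} (ff G C) hE ?_ ?_ (m_ff hm)
    · intro ω e he
      exact ff_not ω e he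
    · intro ω ω' h
      funext e
      have hc : ∀ e : V × K, e.2.2.2 = 0 → ω e = ω' e := fun e he => h e (by
        rintro ⟨-, h2⟩
        omega)
      unfold ff
      rw [decide_eq_decide]
      have hB : ∀ c γ p, Bad G C ω c γ p ↔ Bad G C ω' c γ p := by
        intro c γ p
        unfold Bad
        rw [ch_congr hc]
      have hg : ∀ c i p γ, 1 < p → p < c.1 + 2 → gg ω c i γ p = gg ω' c i γ p := by
        intro c i p γ hp1 hpn
        refine gg_congr (fun j _ hj1 _ => h _ ?_) hp1 hpn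
        rintro ⟨h3, -⟩
        exact hj1 h3
      constructor
      · rintro ⟨c, i, p, γ, a1, a2, a3, a4⟩
        exact ⟨c, i, p, γ, a1, (hB _ _ _).1 a2, a3, by
          rw [← hg c i p γ a2.2.2.1 a2.2.2.2.1]; exact a4⟩
      · rintro ⟨c, i, p, γ, a1, a2, a3, a4⟩
        exact ⟨c, i, p, γ, a1, (hB _ _ _).2 a2, a3, by
          rw [hg c i p γ a2.2.2.1 a2.2.2.2.1]; exact a4⟩
  have h3 : MeasurePreserving (tau G C) (PC (V × K)) (PC (V × K)) := h2.comp h1
  have hmC := (hm V G C hV).2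
  have hres : Measurable (fun ω (v : C) => PsiC G C ω v) := by
    rw [measurable_pi_iff]
    intro v
    exact (measurable_pi_apply _).comp hmC
  have e : (fun ω (v : C) => Psi G ω v) = (fun ω (v : C) => PsiC G C ω v) ∘ tau G C := by
    funext ω v
    exact (key ω v v.2).symm
  rw [e, ← Measure.map_map hres h3.measurable, h3.map_eq]

end

end Pool.Agent.W374.FT
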